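import Mathlib

/-!
# Project KS4 (MP_c4bd07_co): the weighted splitting lemma and the recursion
-/

set_option autoImplicit false

namespace Pool.Agent.Helper7.KS4

open Finset
open scoped Classical

/-- (WSL) The weighted splitting lemma (proof: helper9's note; `K = 3 (q + 1) a` classes). -/
def S_WSL : Prop :=
  ∀ (V : Type) [Fintype V] (ω : V → V → ℕ) (q w M a g t : ℕ), 1 ≤ q → 1 ≤ w → 1 ≤ M → 1 ≤ a →
    (∀ v u, ω v u ≤ w) → (∀ v, ∑ u, ω v u ≤ M) → 4 * M ≤ 2 ^ g →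
    16 * (M * 2 ^ (g + 6 * (q + 1) * g + 1) * (3 * (q + 1) * a)) * q ^ t ≤ (q + 1) ^ t →
    ∃ κ : V → Fin (3 * (q + 1) * a), ∀ v,
      q ^ 2 * (3 * (q + 1) * a) * (∑ u ∈ univ.filter (fun u => κ u = κ v), ω v u) ≤
        (q + 1) ^ 2 * M + 4 * q ^ 2 * (3 * (q + 1) * a) * t * w

/-- (ONE) One step of the recursion in the range used: `L = log₂ M`. -/
def S_ONE : Prop :=
  ∀ (V : Type) [Fintype V] (ω : V → V → ℕ) (w M L : ℕ), L = Nat.log 2 M → 512 ≤ L →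
    1 ≤ w → w ≤ 10 ^ 12 * L ^ 8 →
    (∀ v u, ω v u ≤ w) → (∀ v, ∑ u, ω v u ≤ M) →
    ∃ (K M' : ℕ) (κ : V → Fin K), (∀ v, ∑ u ∈ univ.filter (fun u => κ u = κ v), ω v u ≤ M') ∧
      w ≤ M' ∧ 2 * Nat.log 2 M' ≤ L ∧ L * (K * M') ≤ (L + 4) * M

end Pool.Agent.Helper7.KS4
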