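import Pool.Agent.Helper7.KS4.Goals

/-!
# Project KS4: one step of the recursion
-/

set_option autoImplicit false

namespace Pool.Agent.Helper7.KS4

open Finset
open scoped Classical

/-- a power of `512 ≤ L` against the exponential -/
theorem pow_bound (L : ℕ) (hL : 512 ≤ L) : 10 ^ 29 * L ^ 24 ≤ 2 ^ L := by
  induction L, hL using Nat.le_induction with
  | base =>
    calc 10 ^ 29 * 512 ^ 24 ≤ (2 ^ 128) ^ 4 := by norm_num
      _ = 2 ^ 512 := by rw [← pow_mul]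
  | succ n hn ih =>
    have h1 : (n + 1) ^ 24 ≤ 2 * n ^ 24 := by
      have hn0 : (0 : ℝ) < (n : ℝ) + 1 := by positivity
      have hb := one_add_mul_le_pow (a := -(1 / ((n : ℝ) + 1))) (by
        have : 1 / ((n : ℝ) + 1) ≤ 1 := by
          rw [div_le_one hn0]
          have : (0 : ℝ) ≤ n := by positivity
          linarith
        linarith) 24
      have h2 : (1 : ℝ) + -(1 / ((n : ℝ) + 1)) = n / (n + 1) := by
        field_simp
        ring
      rw [h2, div_pow] at hb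
      have h3 : (1 / 2 : ℝ) ≤ (n : ℝ) ^ 24 / ((n : ℝ) + 1) ^ 24 := by
        refine le_trans ?_ hb
        have h4 : 1 / ((n : ℝ) + 1) ≤ 1 / 48 := by
          apply one_div_le_one_div_of_le (by norm_num)
          have : (512 : ℝ) ≤ n := by exact_mod_cast hn
          linarith
        push_cast
        linarith
      rw [le_div_iff₀ (by positivity)] at h3
      have h5 : (((n + 1) ^ 24 : ℕ) : ℝ) ≤ ((2 * n ^ 24 : ℕ) : ℝ) := by
        push_cast
        linarith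
      exact_mod_cast h5
    calc 10 ^ 29 * (n + 1) ^ 24 ≤ 10 ^ 29 * (2 * n ^ 24) := by gcongr
      _ = 2 * (10 ^ 29 * n ^ 24) := by ring
      _ ≤ 2 * 2 ^ n := by gcongr
      _ = 2 ^ (n + 1) := by ring

/-- `(1 + 1/L)^(L n) ≥ 2^n` -/
theorem pow_double (L n : ℕ) (hL : 1 ≤ L) : 2 ^ n * L ^ (L * n) ≤ (L + 1) ^ (L * n) := by
  have h1 : 2 * L ^ L ≤ (L + 1) ^ L := by
    have hL0 : (0 : ℝ) < L := by exact_mod_cast hL
    have hb := one_add_mul_le_pow (a := 1 / (L : ℝ)) (by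
      have : (0 : ℝ) ≤ 1 / (L : ℝ) := by positivity
      linarith) L
    have h2 : (L : ℝ) * (1 / (L : ℝ)) = 1 := by field_simp
    have h3 : (1 : ℝ) + 1 / (L : ℝ) = (L + 1) / L := by field_simp
    rw [h2, h3, div_pow, le_div_iff₀ (by positivity)] at hb
    have h5 : ((2 * L ^ L : ℕ) : ℝ) ≤ (((L + 1) ^ L : ℕ) : ℝ) := by
      push_cast
      linarith
    exact_mod_cast h5
  calc 2 ^ n * L ^ (L * n) = (2 * L ^ L) ^ n := by rw [mul_pow, pow_mul]
    _ ≤ ((L + 1) ^ L) ^ n := by gcongr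
    _ = (L + 1) ^ (L * n) := by rw [pow_mul]

theorem s_one (h : S_WSL) : S_ONE := by
  intro V _ ω w M L hLdef hL hw hwL hω hωM
  have hM0 : M ≠ 0 := by
    rintro rfl
    rw [Nat.log_zero_right] at hLdef
    omega
  have hM1 : 1 ≤ M := Nat.one_le_iff_ne_zero.2 hM0
  have hML : 2 ^ L ≤ M := by rw [hLdef]; exact Nat.pow_log_le_self 2 hM0
  have hMU : M < 2 ^ (L + 1) := by rw [hLdef]; exact Nat.lt_pow_succ_log_self (by norm_num) M
  obtain ⟨t, ht⟩ : ∃ t, t = 7 * L ^ 3 := ⟨_, rfl⟩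
  obtain ⟨A, hA⟩ : ∃ A, A = 12 * L * (L + 1) * t * w := ⟨_, rfl⟩
  have hL1 : 1 ≤ L := by omega
  have ht1 : 1 ≤ t := by
    rw [ht]
    have : 1 ≤ L ^ 3 := Nat.one_le_pow _ _ hL1
    omega
  have hA1 : 1 ≤ A := by
    rw [hA]
    exact Nat.one_le_iff_ne_zero.2 (by positivity)
  have hpb := pow_bound L hL
  have hAM : A ≤ M := by
    refine le_trans ?_ (hpb.trans hML)
    rw [hA, ht]
    calc 12 * L * (L + 1) * (7 * L ^ 3) * w ≤ 12 * L * (L + L) * (7 * L ^ 3) * (10 ^ 12 * L ^ 8) := by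
          gcongr
      _ = 168 * 10 ^ 12 * L ^ 13 := by ring
      _ ≤ 10 ^ 29 * L ^ 24 := by
          have e1 : L ^ 13 ≤ L ^ 24 := Nat.pow_le_pow_right hL1 (by norm_num)
          gcongr
          norm_num
  obtain ⟨a, ha⟩ : ∃ a, a = M / A := ⟨_, rfl⟩
  have ha1 : 1 ≤ a := by
    rw [ha]
    exact (Nat.one_le_div_iff hA1).2 hAM
  have haM : A * a ≤ M := by
    rw [ha]
    exact Nat.mul_div_le M A
  have haM2 : M < 2 * (A * a) := by
    have h1 : M < A * a + A := by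
      rw [ha]
      have := Nat.lt_mul_div_succ M (Nat.pos_of_ne_zero (by omega : A ≠ 0))
      have e : A * (M / A + 1) = A * (M / A) + A := by ring
      rw [e] at this
      exact this
    have h2 : A ≤ A * a := Nat.le_mul_of_pos_right A ha1
    omega
  obtain ⟨K, hK⟩ : ∃ K, K = 3 * (L + 1) * a := ⟨_, rfl⟩
  have hAK : A * a = 4 * L * t * w * K := by rw [hA, hK]; ring
  have hKM : K ≤ M := by
    refine le_trans ?_ haM
    rw [hAK]
    have h1 : 1 ≤ 4 * L * t * w := Nat.one_le_iff_ne_zero.2 (by positivity)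
    exact Nat.le_mul_of_pos_left K h1
  have hK1 : 1 ≤ K := by
    rw [hK]
    exact Nat.one_le_iff_ne_zero.2 (by positivity)
  -- the conditions
  have hg : 4 * M ≤ 2 ^ (L + 3) := by
    have : 2 ^ (L + 3) = 4 * 2 ^ (L + 1) := by ring
    rw [this]
    omega
  have hcond : 16 * (M * 2 ^ ((L + 3) + 6 * (L + 1) * (L + 3) + 1) * (3 * (L + 1) * a)) * L ^ t ≤
      (L + 1) ^ t := by
    rw [← hK]
    have h1 : 16 * (M * 2 ^ ((L + 3) + 6 * (L + 1) * (L + 3) + 1) * K) ≤ 2 ^ (7 * L ^ 2) := by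
      calc 16 * (M * 2 ^ ((L + 3) + 6 * (L + 1) * (L + 3) + 1) * K)
          ≤ 2 ^ 4 * (2 ^ (L + 1) * 2 ^ ((L + 3) + 6 * (L + 1) * (L + 3) + 1) * 2 ^ (L + 1)) := by
            have e1 : M ≤ 2 ^ (L + 1) := hMU.le
            have e2 : K ≤ 2 ^ (L + 1) := hKM.trans hMU.le
            have e3 : (16 : ℕ) = 2 ^ 4 := by norm_num
            rw [e3]
            gcongr
        _ = 2 ^ (4 + ((L + 1) + ((L + 3) + 6 * (L + 1) * (L + 3) + 1) + (L + 1))) := by
            rw [← pow_add, ← pow_add, ← pow_add]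
        _ ≤ 2 ^ (7 * L ^ 2) := by
            apply Nat.pow_le_pow_right (by norm_num)
            nlinarith
    have h2 := pow_double L (7 * L ^ 2) hL1
    have h3 : L * (7 * L ^ 2) = t := by rw [ht]; ring
    rw [h3] at h2
    calc 16 * (M * 2 ^ ((L + 3) + 6 * (L + 1) * (L + 3) + 1) * K) * L ^ t ≤
        2 ^ (7 * L ^ 2) * L ^ t := by gcongr
      _ ≤ _ := h2
  obtain ⟨κ, hκ⟩ := h V ω L w M a (L + 3) t hL1 hw hM1 ha1 hω hωM hg hcond
  rw [← hK] at hcond
  obtain ⟨B, hB⟩ : ∃ B, B = (L + 1) ^ 2 * M + 4 * L ^ 2 * K * t * w := ⟨_, rfl⟩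
  obtain ⟨M', hM'⟩ : ∃ M', M' = B / (L ^ 2 * K) := ⟨_, rfl⟩
  have hLK : 0 < L ^ 2 * K := by positivity
  have hM'le : L ^ 2 * K * M' ≤ B := by
    rw [hM']
    exact Nat.mul_div_le B _
  subst hK
  refine ⟨3 * (L + 1) * a, M', κ, ?_, ?_, ?_, ?_⟩
  · intro v
    rw [hM', Nat.le_div_iff_mul_le hLK, hB, mul_comm]
    exact hκ v
  · rw [hM', Nat.le_div_iff_mul_le hLK, hB]
    calc w * (L ^ 2 * (3 * (L + 1) * a)) = 1 * (L ^ 2 * (3 * (L + 1) * a)) * 1 * w := by ring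
      _ ≤ 4 * (L ^ 2 * (3 * (L + 1) * a)) * t * w := by gcongr; norm_num
      _ = 4 * L ^ 2 * (3 * (L + 1) * a) * t * w := by ring
      _ ≤ _ := Nat.le_add_left _ _
  · -- `M' ^ 2 ≤ 2 ^ L`
    have h1 : M' ≤ 140 * L ^ 4 * w := by
      have h2 : L ^ 2 * (3 * (L + 1) * a) * M' ≤ L ^ 2 * (3 * (L + 1) * a) * (20 * L * t * w) := by
        refine hM'le.trans ?_
        rw [hB]
        have h3 : (L + 1) ^ 2 * M ≤ 2 * L ^ 2 * (8 * L * t * w * (3 * (L + 1) * a)) := by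
          have e1 : (L + 1) ^ 2 ≤ 2 * L ^ 2 := by nlinarith
          have e2 : M ≤ 8 * L * t * w * (3 * (L + 1) * a) := by
            rw [hAK] at haM2
            have : 2 * (4 * L * t * w * (3 * (L + 1) * a)) = 8 * L * t * w * (3 * (L + 1) * a) := by
              ring
            omega
          gcongr
        calc (L + 1) ^ 2 * M + 4 * L ^ 2 * (3 * (L + 1) * a) * t * w
            ≤ 2 * L ^ 2 * (8 * L * t * w * (3 * (L + 1) * a)) +
                4 * L ^ 2 * (3 * (L + 1) * a) * t * w := by gcongr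
          _ ≤ 2 * L ^ 2 * (8 * L * t * w * (3 * (L + 1) * a)) +
                4 * L ^ 2 * (3 * (L + 1) * a) * t * w * L :=
              Nat.add_le_add_left (Nat.le_mul_of_pos_right _ hL1) _
          _ = L ^ 2 * (3 * (L + 1) * a) * (20 * L * t * w) := by ring
      have h4 := Nat.le_of_mul_le_mul_left h2 hLK
      rw [ht] at h4
      calc M' ≤ 20 * L * (7 * L ^ 3) * w := h4
        _ = 140 * L ^ 4 * w := by ring
    have h5 : M' ≤ 14 * 10 ^ 13 * L ^ 12 := by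
      calc M' ≤ 140 * L ^ 4 * (10 ^ 12 * L ^ 8) := h1.trans (by gcongr)
        _ = 14 * 10 ^ 13 * L ^ 12 := by ring
    have hM'0 : M' ≠ 0 := by
      have : w ≤ M' := by
        rw [hM', Nat.le_div_iff_mul_le hLK, hB]
        calc w * (L ^ 2 * (3 * (L + 1) * a)) = 1 * (L ^ 2 * (3 * (L + 1) * a)) * 1 * w := by ring
          _ ≤ 4 * (L ^ 2 * (3 * (L + 1) * a)) * t * w := by gcongr; norm_num
          _ = 4 * L ^ 2 * (3 * (L + 1) * a) * t * w := by ring
          _ ≤ _ := Nat.le_add_left _ _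
      omega
    have h6 : 2 ^ (2 * Nat.log 2 M') ≤ 2 ^ L := by
      calc 2 ^ (2 * Nat.log 2 M') = (2 ^ Nat.log 2 M') ^ 2 := by rw [mul_comm, pow_mul]
        _ ≤ M' ^ 2 := by
            gcongr
            exact Nat.pow_log_le_self 2 hM'0
        _ ≤ (14 * 10 ^ 13 * L ^ 12) ^ 2 := by gcongr
        _ = (14 * 10 ^ 13) ^ 2 * L ^ 24 := by ring
        _ ≤ 10 ^ 29 * L ^ 24 := Nat.mul_le_mul_right _ (by norm_num)
        _ ≤ 2 ^ L := hpb
    exact (Nat.pow_le_pow_iff_right (by norm_num)).1 h6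
  · have h1 : L * (L * (3 * (L + 1) * a * M')) ≤ L * ((L + 4) * M) := by
      calc L * (L * (3 * (L + 1) * a * M')) = L ^ 2 * (3 * (L + 1) * a) * M' := by ring
        _ ≤ (L + 1) ^ 2 * M + 4 * L ^ 2 * (3 * (L + 1) * a) * t * w := hM'le.trans hB.le
        _ = (L + 1) ^ 2 * M + L * (4 * L * t * w * (3 * (L + 1) * a)) := by ring
        _ ≤ (L + 1) ^ 2 * M + L * M := by
            gcongr
            rw [← hAK]
            exact haM
        _ ≤ L * ((L + 4) * M) := by nlinarith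
    exact Nat.le_of_mul_le_mul_left h1 (by omega)

end Pool.Agent.Helper7.KS4
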