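import Pool.Agent.Helper7.KS4.Goals
import Pool.Agent.Helper7.KS3.Final2

/-!
# Project KS4: the recursion
-/

set_option autoImplicit false

namespace Pool.Agent.Helper7.KS4

open Finset
open scoped Classical

set_option linter.unusedSectionVars false

variable {V : Type} [Fintype V]

/-- weights of the arcs -/
noncomputable def om (PD PF : V → Finset V) (w : ℕ) (v u : V) : ℕ :=
  if u ∈ PF v then w else if u ∈ PD v then 1 else 0

/-- `G` restricted to `S` is `n`-colourable -/
def Col (G : SimpleGraph V) (S : Finset V) (n : ℕ) : Prop :=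
  ∃ f : V → ℕ, (∀ v ∈ S, f v < n) ∧ ∀ v ∈ S, ∀ u ∈ S, G.Adj v u → f v ≠ f u

theorem Col.mono {G : SimpleGraph V} {S : Finset V} {n n' : ℕ} (h : Col G S n) (hn : n ≤ n') :
    Col G S n' := by
  obtain ⟨f, h1, h2⟩ := h
  exact ⟨f, fun v hv => (h1 v hv).trans_le hn, h2⟩

theorem om_le {PD PF : V → Finset V} {w : ℕ} (hw : 1 ≤ w) (v u : V) : om PD PF w v u ≤ w := by
  unfold om
  split_ifs <;> omega

theorem card_PD {PD PF : V → Finset V} {w : ℕ} (hw : 1 ≤ w) (S : Finset V) (v : V) :
    (S.filter (fun u => u ∈ PD v)).card ≤ ∑ u ∈ S, om PD PF w v u := by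
  rw [card_filter]
  apply sum_le_sum
  intro u _
  unfold om
  split_ifs <;> omega

theorem card_PF {PD PF : V → Finset V} {w : ℕ} (S : Finset V) (v : V) :
    w * (S.filter (fun u => u ∈ PF v)).card ≤ ∑ u ∈ S, om PD PF w v u := by
  rw [card_filter, mul_sum]
  apply sum_le_sum
  intro u _
  unfold om
  split_ifs <;> simp

/-- The base of the recursion. -/
theorem base (hC : KS3.S_CLT) (q w M : ℕ) (G D F : SimpleGraph V) (hG : G = D ⊔ F)
    (rD rF : V → ℕ) (hrD : Function.Injective rD) (hrF : Function.Injective rF)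
    (hq : 1 ≤ q) (hw : 1 ≤ w) (S : Finset V)
    (hS : ∀ v ∈ S, ∑ u ∈ S, om (fun v => univ.filter (fun u => D.Adj v u ∧ rD u < rD v))
      (fun v => univ.filter (fun u => F.Adj v u ∧ rF u < rF v)) w v u ≤ M)
    (hM : 10 ^ 11 * q ^ 6 * (M / w + 1) * (Nat.log 2 M + 1) ^ 2 ≤ M) :
    Col G S (M + M / q) := by
  have key : (G.comap (Subtype.val : {x // x ∈ S} → V)).Colorable (M + M / q) := by
    have hdeg : ∀ (E : SimpleGraph V) (r : V → ℕ) (b : ℕ), Function.Injective r →
        (∀ v ∈ S, (S.filter (fun u => E.Adj v u ∧ r u < r v)).card ≤ b) →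
        ∀ S' : Finset {x // x ∈ S}, S'.Nonempty →
          ∃ v ∈ S', (S'.filter (fun u => (E.comap (Subtype.val : {x // x ∈ S} → V)).Adj v u)).card
            ≤ b := by
      intro E r b hr hb S' hS'
      obtain ⟨v, hv, hvmax⟩ := exists_max_image S' (fun x => r x.1) hS'
      refine ⟨v, hv, le_trans ?_ (hb v.1 v.2)⟩
      refine card_le_card_of_injOn (fun x => x.1) ?_ (fun x _ y _ h => Subtype.ext h)
      intro x hx
      have hx' := mem_filter.1 (mem_coe.1 hx)
      have hadj : E.Adj v.1 x.1 := hx'.2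
      refine mem_coe.2 (mem_filter.2 ⟨x.2, hadj, ?_⟩)
      refine lt_of_le_of_ne (hvmax x hx'.1) ?_
      intro h
      exact hadj.ne (hr h).symm
    obtain ⟨H, hH⟩ : ∃ H : Fin 2 → SimpleGraph {x // x ∈ S},
        H = ![D.comap Subtype.val, F.comap Subtype.val] := ⟨_, rfl⟩
    have h := KS3.main2 hC q 2 ![M, M / w] {x // x ∈ S} (G.comap Subtype.val) H hq ?_ ?_ 0 ?_
    · simpa using h
    · intro i S' hS'
      fin_cases i
      · simp only [hH]
        refine hdeg D rD M hrD ?_ S' hS'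
        intro v hv
        refine le_trans (le_trans (card_le_card ?_) (card_PD (PD := fun v => univ.filter
          (fun u => D.Adj v u ∧ rD u < rD v)) (PF := fun v => univ.filter
          (fun u => F.Adj v u ∧ rF u < rF v)) hw S v)) (hS v hv)
        intro u hu
        simpa using hu
      · simp only [hH]
        refine hdeg F rF (M / w) hrF ?_ S' hS'
        intro v hv
        rw [Nat.le_div_iff_mul_le hw, mul_comm]
        refine le_trans (le_trans (Nat.mul_le_mul_left _ (card_le_card ?_)) (card_PF (PD := fun v =>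
          univ.filter (fun u => D.Adj v u ∧ rD u < rD v)) (PF := fun v => univ.filter
          (fun u => F.Adj v u ∧ rF u < rF v)) S v)) (hS v hv)
        intro u hu
        simpa using hu
    · ext a b
      rw [hG, hH, SimpleGraph.iSup_adj]
      simp [Fin.exists_fin_two]
    · have h1 : (univ.erase (0 : Fin 2)) = {1} := by decide
      rw [h1, sum_singleton]
      simpa using hM
  obtain ⟨c⟩ := key
  refine ⟨fun v => if h : v ∈ S then (c ⟨v, h⟩ : ℕ) else 0, ?_, ?_⟩
  · intro v hv
    simp only [dif_pos hv]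
    exact (c ⟨v, hv⟩).2
  · intro v hv u hu hvu h
    simp only [dif_pos hv, dif_pos hu] at h
    have hadj : (G.comap (Subtype.val : {x // x ∈ S} → V)).Adj ⟨v, hv⟩ ⟨u, hu⟩ := hvu
    exact c.valid hadj (Fin.ext h)

/-- the potential -/
noncomputable def phi (q M : ℕ) : ℝ :=
  if Nat.log 2 M ≤ q then (M : ℝ) else M * (1 + 12 / q - 8 / (Nat.log 2 M : ℝ))

theorem phi_le (q M : ℕ) : phi q M ≤ M * (1 + 12 / q) := by
  unfold phi
  have h0 : (0 : ℝ) ≤ M := by positivity
  split_ifs
  · have : (0 : ℝ) ≤ 12 / q := by positivity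
    nlinarith
  · have : (0 : ℝ) ≤ 8 / (Nat.log 2 M : ℝ) := by positivity
    nlinarith

theorem phi_step {q M K M' : ℕ} (hq : 12 ≤ q) (hL : q < Nat.log 2 M)
    (h1 : 2 * Nat.log 2 M' ≤ Nat.log 2 M)
    (h2 : Nat.log 2 M * (K * M') ≤ (Nat.log 2 M + 4) * M) : (K : ℝ) * phi q M' ≤ phi q M := by
  have hphi : phi q M = M * (1 + 12 / q - 8 / (Nat.log 2 M : ℝ)) := by
    unfold phi
    rw [if_neg (by omega)]
  obtain ⟨L, hLd⟩ : ∃ L, L = Nat.log 2 M := ⟨_, rfl⟩
  rw [hphi, ← hLd]
  rw [← hLd] at hL h1 h2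
  have hM0 : (0 : ℝ) ≤ M := by positivity
  have hq0 : (0 : ℝ) < q := by
    have : 0 < q := by omega
    exact_mod_cast this
  have hL0 : (0 : ℝ) < L := by
    have : 0 < L := by omega
    exact_mod_cast this
  have hqL : (q : ℝ) ≤ L := by exact_mod_cast hL.le
  have hq12 : (12 : ℝ) ≤ q := by exact_mod_cast hq
  have h3 : (K : ℝ) * M' ≤ (1 + 4 / L) * M := by
    have : (L : ℝ) * (K * M') ≤ (L + 4) * M := by exact_mod_cast h2
    have e : (1 + 4 / (L : ℝ)) * M = ((L + 4) * M) / L := by field_simp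
    rw [e, le_div_iff₀ hL0]
    linarith
  have hinv : 1 / (L : ℝ) ≤ 1 / q := one_div_le_one_div_of_le hq0 hqL
  have hinv0 : 0 < 1 / (L : ℝ) := by positivity
  unfold phi
  split_ifs with hc
  · calc (K : ℝ) * M' ≤ (1 + 4 / L) * M := h3
      _ ≤ M * (1 + 12 / q - 8 / L) := by
        have : 4 / (L : ℝ) ≤ 12 / q - 8 / L := by
          have e1 : 4 / (L : ℝ) = 4 * (1 / L) := by ring
          have e2 : 12 / (q : ℝ) = 12 * (1 / q) := by ring
          have e3 : 8 / (L : ℝ) = 8 * (1 / L) := by ring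
          rw [e1, e2, e3]
          linarith
        nlinarith
  · -- `L ≥ 2 log M' > 2 q`
    have hL'q : q < Nat.log 2 M' := by omega
    have hL'0 : (0 : ℝ) < (Nat.log 2 M' : ℝ) := by
      have : 0 < Nat.log 2 M' := by omega
      exact_mod_cast this
    have h4 : 2 / (L : ℝ) ≤ 1 / (Nat.log 2 M' : ℝ) := by
      rw [div_le_div_iff₀ hL0 hL'0]
      have : (2 : ℝ) * Nat.log 2 M' ≤ L := by exact_mod_cast h1
      linarith
    have h5 : (1 : ℝ) + 12 / q - 8 / (Nat.log 2 M' : ℝ) ≤ 1 + 12 / q - 16 / L := by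
      have e1 : 8 / (Nat.log 2 M' : ℝ) = 8 * (1 / (Nat.log 2 M' : ℝ)) := by ring
      have e2 : 16 / (L : ℝ) = 8 * (2 / L) := by ring
      rw [e1, e2]
      linarith
    have h6 : (0 : ℝ) ≤ 1 + 12 / q - 16 / L := by
      have e2 : 16 / (L : ℝ) ≤ 16 * (1 / (24 : ℝ)) := by
        have : (24 : ℝ) ≤ L := by
          have : 24 ≤ L := by omega
          exact_mod_cast this
        have := one_div_le_one_div_of_le (by norm_num) this
        have e : 16 / (L : ℝ) = 16 * (1 / L) := by ring
        rw [e]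
        linarith
      have : (0 : ℝ) ≤ 12 / q := by positivity
      linarith
    have hq1 : 12 / (q : ℝ) ≤ 1 := by
      rw [div_le_one hq0]
      exact hq12
    calc (K : ℝ) * (M' * (1 + 12 / q - 8 / (Nat.log 2 M' : ℝ)))
        = (K * M') * (1 + 12 / q - 8 / (Nat.log 2 M' : ℝ)) := by ring
      _ ≤ (K * M') * (1 + 12 / q - 16 / L) := by gcongr
      _ ≤ ((1 + 4 / L) * M) * (1 + 12 / q - 16 / L) := by gcongr
      _ = M * ((1 + 4 / L) * (1 + 12 / q - 16 / L)) := by ring
      _ ≤ M * (1 + 12 / q - 8 / L) := by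
        gcongr
        have e0 : (1 + 4 / (L : ℝ)) * (1 + 12 / q - 16 / L) =
            1 + 12 / q - 16 / L + 4 / L + (4 / L) * (12 / q) - (4 / L) * (16 / L) := by ring
        rw [e0]
        have e1 : (4 / (L : ℝ)) * (12 / q) ≤ 4 / L := by
          have : (0 : ℝ) ≤ 4 / L := by positivity
          nlinarith
        have e2 : (0 : ℝ) ≤ (4 / L) * (16 / L) := by positivity
        have e3 : 16 / (L : ℝ) = 4 / L + 4 / L + 8 / L := by ring
        linarith

/-- **The recursion.** -/
theorem recur (h1 : S_ONE) (hC : KS3.S_CLT) (q w : ℕ) (G D F : SimpleGraph V) (hG : G = D ⊔ F)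
    (rD rF : V → ℕ) (hrD : Function.Injective rD) (hrF : Function.Injective rF)
    (hq : 512 ≤ q) (hw : w = 2 * 10 ^ 11 * q ^ 6 * (q + 1) ^ 2) (M : ℕ) :
    ∀ S : Finset V, w ≤ M →
    (∀ v ∈ S, ∑ u ∈ S, om (fun v => univ.filter (fun u => D.Adj v u ∧ rD u < rD v))
      (fun v => univ.filter (fun u => F.Adj v u ∧ rF u < rF v)) w v u ≤ M) →
    ∃ n : ℕ, (n : ℝ) ≤ (1 + 1 / q) * phi q M ∧ Col G S n := by
  induction M using Nat.strong_induction_on with
  | _ M ih =>
    intro S hwM hS
    have hw1 : 1 ≤ w := by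
      rw [hw]
      exact Nat.one_le_iff_ne_zero.2 (by positivity)
    have hq0 : (0 : ℝ) < q := by
      have : 0 < q := by omega
      exact_mod_cast this
    by_cases hc : Nat.log 2 M ≤ q
    · refine ⟨M + M / q, ?_, base hC q w M G D F hG rD rF hrD hrF (by omega) hw1 S hS ?_⟩
      · unfold phi
        rw [if_pos hc]
        push_cast
        have : ((M / q : ℕ) : ℝ) ≤ (M : ℝ) / q := Nat.cast_div_le
        calc (M : ℝ) + ((M / q : ℕ) : ℝ) ≤ M + M / q := by linarith
          _ = (1 + 1 / q) * M := by ring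
      · have e1 : 2 * (10 ^ 11 * q ^ 6 * (Nat.log 2 M + 1) ^ 2 * (M / w + 1)) ≤ 2 * M := by
          calc 2 * (10 ^ 11 * q ^ 6 * (Nat.log 2 M + 1) ^ 2 * (M / w + 1))
              ≤ 2 * (10 ^ 11 * q ^ 6 * (q + 1) ^ 2 * (M / w + 1)) := by gcongr
            _ = w * (M / w) + w := by rw [hw]; ring
            _ ≤ M + M := Nat.add_le_add (Nat.mul_div_le M w) hwM
            _ = 2 * M := by ring
        have e2 : 10 ^ 11 * q ^ 6 * (M / w + 1) * (Nat.log 2 M + 1) ^ 2 =
          10 ^ 11 * q ^ 6 * (Nat.log 2 M + 1) ^ 2 * (M / w + 1) := by ring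
        rw [e2]
        omega
    · push Not at hc
      obtain ⟨ω, hω⟩ : ∃ ω : V → V → ℕ, ∀ v u, ω v u = if v ∈ S ∧ u ∈ S then
        om (fun v => univ.filter (fun u => D.Adj v u ∧ rD u < rD v))
          (fun v => univ.filter (fun u => F.Adj v u ∧ rF u < rF v)) w v u else 0 :=
        ⟨_, fun _ _ => rfl⟩
      obtain ⟨K, M', κ, hκ, hwM', hlog, hKM⟩ := h1 V ω w M (Nat.log 2 M) rfl (by omega) hw1
        (by
          rw [hw]
          calc 2 * 10 ^ 11 * q ^ 6 * (q + 1) ^ 2
              ≤ 2 * 10 ^ 11 * (Nat.log 2 M) ^ 6 * (Nat.log 2 M) ^ 2 := by gcongr <;> omega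
            _ = 2 * 10 ^ 11 * (Nat.log 2 M) ^ 8 := by ring
            _ ≤ 10 ^ 12 * (Nat.log 2 M) ^ 8 := Nat.mul_le_mul_right _ (by norm_num))
        (by
          intro v u
          rw [hω]
          split_ifs
          · exact om_le hw1 v u
          · exact Nat.zero_le _)
        (by
          intro v
          by_cases hv : v ∈ S
          · refine le_trans (le_of_eq ?_) (hS v hv)
            rw [← sum_filter_add_sum_filter_not univ (fun u => u ∈ S)]
            have e1 : ∑ u ∈ univ.filter (fun u => u ∉ S), ω v u = 0 := by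
              apply sum_eq_zero
              intro u hu
              rw [hω, if_neg (fun h => (mem_filter.1 hu).2 h.2)]
            rw [e1, add_zero]
            have e2 : univ.filter (fun u => u ∈ S) = S := by
              ext u; simp
            rw [e2]
            apply sum_congr rfl
            intro u hu
            rw [hω, if_pos ⟨hv, hu⟩]
          · refine le_trans (le_of_eq ?_) (Nat.zero_le _)
            apply sum_eq_zero
            intro u _
            rw [hω, if_neg (fun h => hv h.1)])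
      have hM'M : M' < M := by
        by_contra hcon
        push Not at hcon
        have := Nat.log_mono_right (b := 2) hcon
        omega
      obtain ⟨n', hn'⟩ : ∃ n' : ℕ, n' = ⌊(1 + 1 / (q : ℝ)) * phi q M'⌋₊ := ⟨_, rfl⟩
      have hclass : ∀ j : Fin K, Col G (S.filter (fun v => κ v = j)) n' := by
        intro j
        obtain ⟨n, hn, hcol⟩ := ih M' hM'M (S.filter (fun v => κ v = j)) hwM' (by
          intro v hv
          rw [mem_filter] at hv
          refine le_trans ?_ (hκ v)
          have e1 : ∑ u ∈ S.filter (fun u => κ u = j), om (fun v => univ.filter (fun u => D.Adj v u ∧ rD u < rD v))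
              (fun v => univ.filter (fun u => F.Adj v u ∧ rF u < rF v)) w v u =
              ∑ u ∈ S.filter (fun u => κ u = j), ω v u := by
            apply sum_congr rfl
            intro u hu
            rw [hω, if_pos ⟨hv.1, (mem_filter.1 hu).1⟩]
          rw [e1]
          apply sum_le_sum_of_subset
          intro u hu
          rw [mem_filter] at hu ⊢
          exact ⟨mem_univ _, hu.2.trans hv.2.symm⟩)
        refine hcol.mono ?_
        rw [hn']
        exact Nat.le_floor hn
      choose f hf1 hf2 using hclass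
      refine ⟨K * n', ?_, fun v => κ v * n' + f (κ v) v, ?_, ?_⟩
      · have hphi0 : 0 ≤ (1 + 1 / (q : ℝ)) * phi q M' ∨ n' = 0 := by
          rcases le_or_gt 0 ((1 + 1 / (q : ℝ)) * phi q M') with h | h
          · exact Or.inl h
          · right
            rw [hn']
            exact Nat.floor_of_nonpos h.le
        have hstep := phi_step (K := K) (M' := M') (by omega : 12 ≤ q) hc hlog hKM
        have hphiM : 0 ≤ phi q M := by
          unfold phi
          split_ifs with h
          · positivity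
          · have hL0 : (0 : ℝ) < (Nat.log 2 M : ℝ) := by
              have : 0 < Nat.log 2 M := by omega
              exact_mod_cast this
            have : 8 / (Nat.log 2 M : ℝ) ≤ 1 := by
              rw [div_le_one hL0]
              have : 8 ≤ Nat.log 2 M := by omega
              exact_mod_cast this
            have h12 : (0 : ℝ) ≤ 12 / q := by positivity
            have hM0 : (0 : ℝ) ≤ M := by positivity
            apply mul_nonneg hM0
            linarith
        push_cast
        rcases hphi0 with h | h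
        · have hfl : (n' : ℝ) ≤ (1 + 1 / (q : ℝ)) * phi q M' := by
            rw [hn']
            exact Nat.floor_le h
          calc (K : ℝ) * n' ≤ K * ((1 + 1 / (q : ℝ)) * phi q M') := by gcongr
            _ = (1 + 1 / (q : ℝ)) * (K * phi q M') := by ring
            _ ≤ (1 + 1 / (q : ℝ)) * phi q M := by gcongr
        · rw [h]
          have : 0 ≤ (1 + 1 / (q : ℝ)) * phi q M := by positivity
          simpa using this
      · intro v hv
        have h1 := hf1 (κ v) v (mem_filter.2 ⟨hv, rfl⟩)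
        have h2 : (κ v : ℕ) + 1 ≤ K := (κ v).2
        calc (κ v : ℕ) * n' + f (κ v) v < (κ v : ℕ) * n' + n' := by omega
          _ = ((κ v : ℕ) + 1) * n' := by ring
          _ ≤ K * n' := by gcongr
      · intro v hv u hu hvu heq
        have h1 := hf1 (κ v) v (mem_filter.2 ⟨hv, rfl⟩)
        have h2 := hf1 (κ u) u (mem_filter.2 ⟨hu, rfl⟩)
        have e1 : (κ v : ℕ) = κ u := by
          have a1 : ((κ v : ℕ) * n' + f (κ v) v) / n' = κ v := by
            rw [mul_comm, Nat.mul_add_div (by omega), Nat.div_eq_of_lt h1, add_zero]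
          have a2 : ((κ u : ℕ) * n' + f (κ u) u) / n' = κ u := by
            rw [mul_comm, Nat.mul_add_div (by omega), Nat.div_eq_of_lt h2, add_zero]
          simp only at heq
          rw [← a1, heq, a2]
        have e2 : κ v = κ u := Fin.ext e1
        simp only at heq
        rw [e2] at heq
        have e3 : f (κ u) v = f (κ u) u := by omega
        exact hf2 (κ u) v (mem_filter.2 ⟨hv, e2⟩) u (mem_filter.2 ⟨hu, rfl⟩) hvu e3

/-- **The final theorem of KS4.** -/
theorem main4 (h1 : S_ONE) (hC : KS3.S_CLT) (q k : ℕ) (m : Fin k → ℕ) (G : SimpleGraph V)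
    (H : Fin k → SimpleGraph V) (i₀ : Fin k) (hq : 1 ≤ q)
    (hH : ∀ i, ∀ S : Finset V, S.Nonempty →
      ∃ v ∈ S, (S.filter (fun w => (H i).Adj v w)).card ≤ m i)
    (hG : G = ⨆ i, H i)
    (hM : 10 ^ 36 * q ^ 9 * ((∑ i ∈ univ.erase i₀, m i) + 1) ≤ m i₀) :
    G.Colorable (m i₀ + m i₀ / q) := by
  obtain ⟨M, hMdef⟩ : ∃ M, M = m i₀ := ⟨_, rfl⟩
  obtain ⟨r, hr⟩ : ∃ r, r = ∑ i ∈ univ.erase i₀, m i := ⟨_, rfl⟩
  rw [← hMdef, ← hr] at hM
  rw [← hMdef]
  obtain ⟨m', hm'⟩ : ∃ m' : Fin k → ℕ, ∀ i, m' i = if i = i₀ then 0 else m i := ⟨_, fun _ => rfl⟩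
  obtain ⟨H', hH'⟩ : ∃ H' : Fin k → SimpleGraph V, ∀ i, H' i = if i = i₀ then ⊥ else H i :=
    ⟨_, fun _ => rfl⟩
  have hsum : ∑ i, m' i = r := by
    rw [hr, ← add_sum_erase _ _ (mem_univ i₀), hm', if_pos rfl, zero_add]
    apply sum_congr rfl
    intro i hi
    rw [hm', if_neg (ne_of_mem_erase hi)]
  have hdeg' : ∀ i, ∀ S : Finset V, S.Nonempty →
      ∃ v ∈ S, (S.filter (fun w => (H' i).Adj v w)).card ≤ m' i := by
    intro i S hS
    by_cases hi : i = i₀
    · obtain ⟨v, hv⟩ := hS
      refine ⟨v, hv, ?_⟩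
      rw [hH', if_pos hi]
      simp
    · obtain ⟨v, hv, hv'⟩ := hH i S hS
      refine ⟨v, hv, ?_⟩
      rw [hH', if_neg hi, hm', if_neg hi]
      exact hv'
  obtain ⟨F, hF⟩ : ∃ F : SimpleGraph V, F = ⨆ i, H' i := ⟨_, rfl⟩
  have hFdeg := fun S hS => Helper7.KS.two_M_degenerate F H' hdeg' hF S hS
  rw [hsum] at hFdeg
  obtain ⟨rF, hrF, hrFc⟩ := Helper7.KS.degen_rank F (2 * r) hFdeg
  obtain ⟨rD, hrD, hrDc⟩ := Helper7.KS.degen_rank (H i₀) (m i₀) (hH i₀)
  rw [← hMdef] at hrDc
  have hGDF : G = H i₀ ⊔ F := by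
    ext a b
    rw [hG, SimpleGraph.sup_adj, SimpleGraph.iSup_adj, hF, SimpleGraph.iSup_adj]
    constructor
    · rintro ⟨i, hi⟩
      by_cases hi0 : i = i₀
      · left; rw [← hi0]; exact hi
      · right; exact ⟨i, by rw [hH', if_neg hi0]; exact hi⟩
    · rintro (h | ⟨i, hi⟩)
      · exact ⟨i₀, h⟩
      · rw [hH'] at hi
        split_ifs at hi with hi0
        · exact absurd hi (by simp)
        · exact ⟨i, hi⟩
  -- parameters
  obtain ⟨Q, hQ⟩ : ∃ Q, Q = 512 * q := ⟨_, rfl⟩
  obtain ⟨w, hw⟩ : ∃ w, w = 2 * 10 ^ 11 * Q ^ 6 * (Q + 1) ^ 2 := ⟨_, rfl⟩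
  have hQp : 0 < Q := by omega
  have hw1 : 1 ≤ w := by
    rw [hw]
    exact Nat.one_le_iff_ne_zero.2 (by positivity)
  have hwb : 2 * Q * w * (r + 1) ≤ M := by
    refine le_trans ?_ hM
    rw [hw, hQ]
    calc 2 * (512 * q) * (2 * 10 ^ 11 * (512 * q) ^ 6 * (512 * q + 1) ^ 2) * (r + 1)
        ≤ 2 * (512 * q) * (2 * 10 ^ 11 * (512 * q) ^ 6 * (512 * q + q) ^ 2) * (r + 1) := by gcongr
      _ = (2 * 512 * (2 * 10 ^ 11 * 512 ^ 6 * 513 ^ 2)) * (q ^ 9 * (r + 1)) := by ring
      _ ≤ 10 ^ 36 * (q ^ 9 * (r + 1)) := Nat.mul_le_mul_right _ (by norm_num)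
      _ = 10 ^ 36 * q ^ 9 * (r + 1) := by ring
  have hwM : w ≤ M := by
    refine le_trans ?_ hwb
    calc w = 1 * w * 1 := by ring
      _ ≤ 2 * Q * w * (r + 1) := by
        have : 1 ≤ 2 * Q := by omega
        gcongr
        omega
  obtain ⟨M0, hM0⟩ : ∃ M0, M0 = M + w * (2 * r) := ⟨_, rfl⟩
  obtain ⟨n, hn, f, hf1, hf2⟩ := recur h1 hC Q w G (H i₀) F hGDF rD rF hrD hrF (by omega) hw M0
    univ (by omega) (by
      intro v _
      rw [hM0]
      refine le_trans ?_ (Nat.add_le_add (hrDc v) (Nat.mul_le_mul_left w (hrFc v)))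
      rw [card_filter, card_filter, mul_sum, ← sum_add_distrib]
      apply sum_le_sum
      intro u _
      unfold om
      simp only [mem_filter, mem_univ, true_and]
      split_ifs <;> simp)
  have hcol : G.Colorable n := by
    refine ⟨SimpleGraph.Coloring.mk (fun v => (⟨f v, hf1 v (mem_univ v)⟩ : Fin n)) ?_⟩
    intro a b hab h
    exact hf2 a (mem_univ a) b (mem_univ b) hab (congrArg Fin.val h)
  refine hcol.mono ?_
  -- the number of colours
  have hq0 : (0 : ℝ) < q := by exact_mod_cast hq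
  have hQ0 : (0 : ℝ) < Q := by
    have : 0 < Q := by omega
    exact_mod_cast this
  have hM0r : (M0 : ℝ) ≤ (1 + 1 / Q) * M := by
    rw [hM0]
    push_cast
    have h2 : (Q : ℝ) * (w * (2 * r)) ≤ M := by
      have : Q * (w * (2 * r)) ≤ M := by
        refine le_trans ?_ hwb
        calc Q * (w * (2 * r)) = 2 * Q * w * r := by ring
          _ ≤ 2 * Q * w * (r + 1) := by gcongr; omega
      exact_mod_cast this
    have h3 : (w : ℝ) * (2 * r) ≤ 1 / Q * M := by
      rw [one_div, inv_mul_eq_div, le_div_iff₀ hQ0]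
      linarith
    linarith
  have hMr : (0 : ℝ) ≤ M := by positivity
  have hx : (1 : ℝ) / Q = 1 / 512 * (1 / q) := by
    rw [hQ]; push_cast; field_simp
  have hx1 : (1 : ℝ) / q ≤ 1 := by
    rw [div_le_one hq0]
    exact_mod_cast hq
  have hx0 : (0 : ℝ) < 1 / q := by positivity
  have hn2 : (n : ℝ) ≤ M + M / q := by
    calc (n : ℝ) ≤ (1 + 1 / Q) * phi Q M0 := hn
      _ ≤ (1 + 1 / Q) * (M0 * (1 + 12 / Q)) := by
          gcongr
          exact phi_le Q M0
      _ ≤ (1 + 1 / Q) * (((1 + 1 / Q) * M) * (1 + 12 / Q)) := by gcongr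
      _ = ((1 + 1 / Q) * (1 + 1 / Q) * (1 + 12 * (1 / Q))) * M := by ring
      _ ≤ (1 + 1 / q) * M := by
          gcongr
          rw [hx]
          nlinarith [mul_pos hx0 hx0, mul_pos (mul_pos hx0 hx0) hx0, mul_nonneg hx0.le (sub_nonneg.2 hx1),
            mul_nonneg (mul_pos hx0 hx0).le (sub_nonneg.2 hx1)]
      _ = M + M / q := by ring
  have h3 : n - M ≤ M / q := by
    rw [Nat.le_div_iff_mul_le (by omega)]
    rcases le_or_gt n M with h | h
    · rw [Nat.sub_eq_zero_of_le h, Nat.zero_mul]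
      exact Nat.zero_le _
    · have h4 : ((n : ℝ) - M) * q ≤ M := by
        have : (n : ℝ) - M ≤ M / q := by linarith
        rwa [le_div_iff₀ hq0] at this
      have h5 : (((n - M) * q : ℕ) : ℝ) ≤ (M : ℝ) := by
        push_cast [Nat.cast_sub h.le]
        exact h4
      exact_mod_cast h5
  omega

end Pool.Agent.Helper7.KS4
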